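import Pool.Agent.N381.SG.One
import Pool.Agent.N381.ST.Avg

set_option autoImplicit false

/-!
# Averaging over the hard arrays and over the pairs
-/

namespace Pool.Agent.N381.SG

open Finset ZMod Pointwise

open Pool.Agent.N381.ST (sg sg_norm sg_mul al setA setB card_A card_B bound_A bound_B)

variable {M r V t : ℕ} [NeZero M]

open Classical in
theorem card_cf (D : Tables M r V t) [Fintype D.cells] (hf : D.fin = ‹Fintype D.cells›) :
    #(univ.filter (fun c : D.cells × Fin r => D.cf c ≠ 0)) ≤ r * D.space := by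
  have h1 : #(univ.filter (fun c : D.cells × Fin r => D.cf c ≠ 0)) ≤
      #((univ.filter (fun c : D.cells => ∃ l, D.coef c l ≠ 0 ∨ D.mult c l ≠ 0)) ×ˢ
        (univ : Finset (Fin r))) := by
    refine Finset.card_le_card ?_
    intro q hq
    rw [Finset.mem_filter] at hq
    rw [Finset.mem_product, Finset.mem_filter]
    refine ⟨⟨Finset.mem_univ _, q.2, ?_⟩, Finset.mem_univ _⟩
    by_contra hcon
    push Not at hcon
    apply hq.2
    funext z
    simp only [Tables.cf, hcon.1, hcon.2, Pi.zero_apply, add_zero]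
  rw [Finset.card_product, Finset.card_univ, Fintype.card_fin, mul_comm] at h1
  refine le_trans h1 (le_of_eq ?_)
  rw [Tables.space, hf]

theorem avg {Ω : Type} [Fintype Ω] (n : ℕ) (p : Ω → ℝ) (D : Ω → Tables M r V t) (δ : ℝ)
    (hD : Solves n p D δ) (hδ : 0 < δ) (s : ℕ) (hs : ∀ ω, (D ω).space ≤ s)
    (lam : ℝ) (hl0 : 0 < lam) (hl1 : lam < 1)
    (hl : ∀ a : ZMod (2 * M), a ≠ 0 → ‖(1 : ℂ) + stdAddChar a‖ ≤ 2 * lam)
    (hl' : ∀ a b : ZMod (2 * M), a ≠ b → ‖(stdAddChar a : ℂ) + stdAddChar b‖ ≤ 2 * lam)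
    (k h v S z0 rr R R' κ : ℕ) (hh : 2 ≤ h)
    (hv : 2 * h + (2 * rr + 3) * al (h - 1) + 1 ≤ v) (hv3 : 3 * h + 1 ≤ v) (hS : v + h ≤ S)
    (hz0 : z0 = 2 * h) (hκ : (2 * M) ^ κ ≤ h) (ε : ℝ) (h1 : ((rr : ℝ) + 1) / h + lam ^ (rr + 1) ≤ ε ^ 2)
    (h2 : 1 / (h : ℝ) + lam ^ R ≤ ε ^ 2)
    (h3 : 1 / (2 : ℝ) ^ κ + (1 - 2 * (1 - lam) / h) ^ R' ≤ ε ^ 2) (hε : 0 ≤ ε)
    (hεδ : ((M : ℝ) ^ r * V) ^ t * ε ≤ δ) (hkn : k * v ≤ n) (hkS : k * S ≤ 2 * n ^ 2)
    (hkkS : k * (k * S) ≤ 2 * n ^ 2) :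
    δ * (k : ℝ) ^ 2 ≤ (M : ℝ) * ((R * R' + 1 : ℕ) : ℝ) * ((r * s : ℕ) : ℝ) := by
  classical
  letI inst : ∀ ω, Fintype (D ω).cells := fun ω => (D ω).fin
  set W : ℝ := ((M : ℝ) ^ r * V) ^ t with hW
  set X := (Fin k → Fin h) × Finset (Fin k × Fin v) with hX
  set Tt : ℝ := (h : ℝ) ^ k * 2 ^ Fintype.card (Fin k × Fin v) with hTt
  have hh0 : (0 : ℝ) < h := by exact_mod_cast (by omega : 0 < h)
  have hTt0 : 0 < Tt := by positivity
  have hXc : (Fintype.card X : ℝ) = Tt := by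
    change ((Fintype.card ((Fin k → Fin h) × Finset (Fin k × Fin v)) : ℕ) : ℝ) = Tt
    rw [Fintype.card_prod, Fintype.card_fun, Fintype.card_fin, Fintype.card_fin,
      Fintype.card_finset]
    push_cast
    rfl
  have hv1 : 1 ≤ v := by omega
  have hkn' : k ≤ n := le_trans (Nat.le_mul_of_pos_right k hv1) hkn
  set A : X → Finset ℕ := fun a => setA k h S a.1 with hA
  set B : X → Finset ℕ := fun a => setB k v S a.2 with hB
  have hArrA : ∀ a, Arr n (A a) := fun a => ⟨le_trans (card_A _ _ _ _) hkn', fun y hy =>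
    le_trans (bound_A k h S a.1 (by omega) y hy) hkS⟩
  have hArrB : ∀ a, Arr n (B a) := fun a => ⟨le_trans (card_B _ _ _ _) hkn, fun y hy =>
    le_trans (bound_B k v S a.2 (by omega) y hy) hkkS⟩
  set zq : Fin k × Fin k → ℕ := fun q => ((q.1 : ℕ) + q.2 * k) * S + z0 with hzq
  set cor : Ω → Fin k × Fin k → X → ℝ := fun ω q a =>
    if (D ω).output (A a) (B a) (zq q) = decide (zq q ∈ A a + B a) then 1 else 0 with hcor
  obtain ⟨hp0, hp1, hp2⟩ := hD
  -- lower bound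
  have hlow : (k : ℝ) ^ 2 * (Tt * (1 / 2 + δ)) ≤ ∑ ω, p ω * ∑ q, ∑ a, cor ω q a := by
    have e1 : ∑ ω, p ω * ∑ q, ∑ a, cor ω q a = ∑ q : Fin k × Fin k, ∑ a : X, ∑ ω, p ω * cor ω q a := by
      simp only [Finset.mul_sum]
      rw [Finset.sum_comm]
      refine Finset.sum_congr rfl fun q _ => ?_
      rw [Finset.sum_comm]
    rw [e1]
    calc (k : ℝ) ^ 2 * (Tt * (1 / 2 + δ)) = ∑ _q : Fin k × Fin k, ∑ _a : X, (1 / 2 + δ) := by
          rw [Finset.sum_const, Finset.sum_const, Finset.card_univ, Finset.card_univ, nsmul_eq_mul,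
            nsmul_eq_mul, hXc, Fintype.card_prod, Fintype.card_fin]
          push_cast
          ring
      _ ≤ _ := Finset.sum_le_sum fun q _ => Finset.sum_le_sum fun a _ =>
          hp2 (A a) (B a) (hArrA a) (hArrB a) (zq q)
  -- upper bound
  set Bd : Ω → Finset (Fin k × Fin k) := fun ω =>
    univ.filter (fun q => Bad (D ω).cf S k h v (R * R' + 1) q) with hBd
  have hup : ∀ ω, ∑ q, ∑ a, cor ω q a ≤ (k : ℝ) ^ 2 * (Tt * ((1 + δ) / 2)) + Tt / 2 * #(Bd ω) := by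
    intro ω
    have e2 : ∀ q, ∑ a, cor ω q a ≤ Tt * ((1 + δ) / 2) + if q ∈ Bd ω then Tt / 2 else 0 := by
      intro q
      by_cases hq : q ∈ Bd ω
      · rw [if_pos hq]
        have e3 : ∑ a, cor ω q a ≤ ∑ _a : X, (1 : ℝ) := Finset.sum_le_sum fun a _ => by
          simp only [hcor]
          split_ifs <;> norm_num
        rw [Finset.sum_const, Finset.card_univ, nsmul_eq_mul, mul_one, hXc] at e3
        have : 0 ≤ Tt * δ := by positivity
        linarith
      · rw [if_neg hq, add_zero]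
        have hq' : ¬ Bad (D ω).cf S k h v (R * R' + 1) (q.1, q.2) := by
          intro h
          exact hq (Finset.mem_filter.mpr ⟨Finset.mem_univ _, h⟩)
        have e4 := good_pair (D ω) lam hl0 hl1 hl hl' k h v S z0 rr R R' κ hh hv hv3 hS hz0 hκ ε h1 h2
          h3 hε q.1 q.2 hq'
        have e5 : ∑ a : X, sg (decide (zq q ∈ A a + B a)) * sg ((D ω).output (A a) (B a) (zq q)) =
            ((2 * ∑ a, cor ω q a - Tt : ℝ) : ℂ) := by
          rw [← hXc]
          have : ∀ a : X, sg (decide (zq q ∈ A a + B a)) * sg ((D ω).output (A a) (B a) (zq q)) =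
              ((2 * cor ω q a - 1 : ℝ) : ℂ) := fun a => sg_mul _ _
          simp only [this]
          rw [← Complex.ofReal_sum]
          congr 1
          rw [Finset.sum_sub_distrib, ← Finset.mul_sum, Finset.sum_const, Finset.card_univ,
            nsmul_eq_mul, mul_one]
        have e6 : ‖((2 * ∑ a, cor ω q a - Tt : ℝ) : ℂ)‖ ≤ W * (Tt * ε) := by
          rw [← e5, Fintype.sum_prod_type]
          exact e4
        rw [Complex.norm_real] at e6
        have e7 := le_trans (Real.le_norm_self _) e6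
        have e8 : W * (Tt * ε) ≤ Tt * δ := by
          calc W * (Tt * ε) = Tt * (W * ε) := by ring
            _ ≤ Tt * δ := mul_le_mul_of_nonneg_left hεδ hTt0.le
        linarith
    refine le_trans (Finset.sum_le_sum fun q _ => e2 q) (le_of_eq ?_)
    rw [Finset.sum_add_distrib, Finset.sum_const, Finset.card_univ, nsmul_eq_mul, Fintype.card_prod,
      Fintype.card_fin, ← Finset.sum_filter, Finset.sum_const, nsmul_eq_mul]
    have : (univ : Finset (Fin k × Fin k)).filter (fun q => q ∈ Bd ω) = Bd ω := by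
      ext q; simp
    rw [this]
    push_cast
    ring
  have hbc : ∀ ω, (#(Bd ω) : ℝ) ≤ (M : ℝ) * ((R * R' + 1 : ℕ) : ℝ) * ((r * s : ℕ) : ℝ) := by
    intro ω
    have e12 : #(univ.filter (fun c : (D ω).cells × Fin r => (D ω).cf c ≠ 0)) ≤ r * s :=
      le_trans (card_cf (D ω) rfl) (Nat.mul_le_mul_left _ (hs ω))
    have e9 := bad_count (D ω).cf (r * s) e12 S k h v (R * R' + 1) (Bd ω)
      (fun q hq => (Finset.mem_filter.mp hq).2)
    have e10 : (M ^ (r * s)) ^ (R * R' + 1) ≤ 2 ^ (M * (R * R' + 1) * (r * s)) := by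
      calc (M ^ (r * s)) ^ (R * R' + 1) ≤ ((2 ^ M) ^ (r * s)) ^ (R * R' + 1) :=
            Nat.pow_le_pow_left (Nat.pow_le_pow_left (Nat.lt_two_pow_self).le _) _
        _ = 2 ^ (M * (R * R' + 1) * (r * s)) := by
            rw [← pow_mul, ← pow_mul]
            congr 1
            ring
    have e11 : #(Bd ω) ≤ M * (R * R' + 1) * (r * s) :=
      (Nat.pow_le_pow_iff_right (by norm_num : 1 < 2)).mp (le_trans e9 e10)
    exact_mod_cast e11
  have hfin : ∑ ω, p ω * ∑ q, ∑ a, cor ω q a ≤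
      (k : ℝ) ^ 2 * (Tt * ((1 + δ) / 2)) +
        Tt / 2 * ((M : ℝ) * ((R * R' + 1 : ℕ) : ℝ) * ((r * s : ℕ) : ℝ)) := by
    calc ∑ ω, p ω * ∑ q, ∑ a, cor ω q a
        ≤ ∑ ω, p ω * ((k : ℝ) ^ 2 * (Tt * ((1 + δ) / 2)) +
            Tt / 2 * ((M : ℝ) * ((R * R' + 1 : ℕ) : ℝ) * ((r * s : ℕ) : ℝ))) := by
          refine Finset.sum_le_sum fun ω _ => mul_le_mul_of_nonneg_left ?_ (hp0 ω)
          refine le_trans (hup ω) ?_
          have := mul_le_mul_of_nonneg_left (hbc ω) (by positivity : 0 ≤ Tt / 2)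
          linarith
      _ = _ := by rw [← Finset.sum_mul, hp1, one_mul]
  have h12 := le_trans hlow hfin
  have h13 : Tt / 2 * (δ * (k : ℝ) ^ 2) ≤
      Tt / 2 * ((M : ℝ) * ((R * R' + 1 : ℕ) : ℝ) * ((r * s : ℕ) : ℝ)) := by
    nlinarith
  exact le_of_mul_le_mul_left h13 (by positivity)

end Pool.Agent.N381.SG
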