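import Pool.Agent.N381.SG.Mod
import Pool.Agent.N381.ST.Tre
import Pool.Agent.N381.ST.Dsc

set_option autoImplicit false

/-!
# Decision trees which read cells
-/

namespace Pool.Agent.N381.SG

open Finset ZMod
open Pool.Agent.N381.ST (sg sg_norm indicator chr_norm)

/-- If a function is uncorrelated with all products of a character of the sums and of one-sided functions,
it is uncorrelated with the output of a query algorithm. -/
theorem tree_bound {M r V : ℕ} [NeZero M] {S ι X Y : Type} [Fintype ι] [DecidableEq ι] [Fintype X]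
    [Fintype Y] (ℓ : X → Y → ι × Fin r → ZMod M) (tk : X → Y → ι → Fin V)
    (hrect : ∀ c x x' y y', tk x y c = tk x' y' c → tk x y' c = tk x y c)
    (mk : ι → (Fin r → ZMod M) → Fin V → S) (u : X → Y → ℂ) (q : ℝ)
    (hu : ∀ (k : ι × Fin r → ZMod M) (f : X → ℂ) (g : Y → ℂ), (∀ x, ‖f x‖ ≤ 1) → (∀ y, ‖g y‖ ≤ 1) →
      ‖∑ x, ∑ y, u x y * stdAddChar (∑ c, k c * ℓ x y c) * f x * g y‖ ≤ q)
    (t : ℕ) : ∀ (T : Tree S ι t) (k : ι × Fin r → ZMod M) (f : X → ℂ) (g : Y → ℂ),
      (∀ x, ‖f x‖ ≤ 1) → (∀ y, ‖g y‖ ≤ 1) →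
      ‖∑ x, ∑ y, u x y * stdAddChar (∑ c, k c * ℓ x y c) * f x * g y *
        sg (Tree.eval t T (fun c => mk c (fun l => ℓ x y (c, l)) (tk x y c)))‖ ≤
        ((M : ℝ) ^ r * V) ^ t * q := by
  classical
  induction t with
  | zero =>
    intro T k f g hf hg
    have h1 := hu k f g hf hg
    have h0 : ∑ x, ∑ y, u x y * stdAddChar (∑ c, k c * ℓ x y c) * f x * g y *
        sg (Tree.eval 0 T (fun c => mk c (fun l => ℓ x y (c, l)) (tk x y c))) =
        (∑ x, ∑ y, u x y * stdAddChar (∑ c, k c * ℓ x y c) * f x * g y) * sg (show Bool from T) := by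
      rw [Finset.sum_mul]
      refine Finset.sum_congr rfl fun x _ => ?_
      rw [Finset.sum_mul]
      rfl
    rw [h0, norm_mul, sg_norm, mul_one, pow_zero, one_mul]
    exact h1
  | succ t ih =>
    intro T k f g hf hg
    have hM : (M : ℂ) ≠ 0 := by exact_mod_cast NeZero.ne M
    have hM' : (0 : ℝ) < M := by exact_mod_cast Nat.pos_of_ne_zero (NeZero.ne M)
    set c0 : ι := T.1 with hc0
    set fr : Fin V → X → ℂ := fun β x => if ∃ y, tk x y c0 = β then 1 else 0 with hfr
    set gr : Fin V → Y → ℂ := fun β y => if ∃ x, tk x y c0 = β then 1 else 0 with hgr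
    have hfg : ∀ (β : Fin V) x y, fr β x * gr β y = if tk x y c0 = β then 1 else 0 := by
      intro β x y
      by_cases h : tk x y c0 = β
      · have h1 : ∃ y, tk x y c0 = β := ⟨y, h⟩
        have h2 : ∃ x, tk x y c0 = β := ⟨x, h⟩
        simp only [hfr, hgr]
        rw [if_pos h1, if_pos h2, if_pos h, one_mul]
      · rw [if_neg h]
        simp only [hfr, hgr]
        by_cases h1 : ∃ y, tk x y c0 = β
        · by_cases h2 : ∃ x, tk x y c0 = β
          · obtain ⟨y', hy'⟩ := h1
            obtain ⟨x', hx'⟩ := h2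
            exact absurd ((hrect c0 x x' y' y (hy'.trans hx'.symm)).trans hy') h
          · rw [if_neg h2, mul_zero]
        · rw [if_neg h1, zero_mul]
    have hfr1 : ∀ β x, ‖fr β x‖ ≤ 1 := by
      intro β x
      simp only [hfr]
      split_ifs <;> simp
    have hgr1 : ∀ β y, ‖gr β y‖ ≤ 1 := by
      intro β y
      simp only [hgr]
      split_ifs <;> simp
    -- the indicator of the values of the sums of the cell
    have hind : ∀ (L lam : Fin r → ZMod M), (if L = lam then (1 : ℂ) else 0) =
        (1 / (M : ℂ)) ^ r * ∑ κ : Fin r → ZMod M, stdAddChar (∑ l, κ l * (L l - lam l)) := by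
      intro L lam
      have h1 : (if L = lam then (1 : ℂ) else 0) = ∏ l : Fin r, (if L l = lam l then (1 : ℂ) else 0) := by
        by_cases h : L = lam
        · rw [if_pos h, h]
          simp
        · rw [if_neg h]
          obtain ⟨l, hl⟩ : ∃ l, L l ≠ lam l := by
            by_contra hcon
            push Not at hcon
            exact h (funext hcon)
          exact (Finset.prod_eq_zero (Finset.mem_univ l) (if_neg hl)).symm
      rw [h1]
      simp only [indicator]
      rw [Finset.prod_mul_distrib, Finset.prod_const, Finset.card_univ, Fintype.card_fin,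
        Finset.prod_univ_sum, Fintype.piFinset_univ]
      congr 1
      refine Finset.sum_congr rfl fun κ _ => ?_
      exact (Pool.Agent.N381.ST.chr_sum _ _).symm
    have h1 : ∑ x, ∑ y, u x y * stdAddChar (∑ c, k c * ℓ x y c) * f x * g y *
        sg (Tree.eval (t + 1) T (fun c => mk c (fun l => ℓ x y (c, l)) (tk x y c))) =
        ∑ lam : Fin r → ZMod M, ∑ β : Fin V, (1 / (M : ℂ)) ^ r * ∑ κ : Fin r → ZMod M,
          ∑ x, ∑ y, u x y * stdAddChar (∑ c, k c * ℓ x y c) * f x * g y *
            (stdAddChar (∑ l, κ l * (ℓ x y (c0, l) - lam l)) * (fr β x * gr β y)) *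
            sg (Tree.eval t (T.2 (mk c0 lam β)) (fun c => mk c (fun l => ℓ x y (c, l)) (tk x y c))) := by
      have h2 : ∀ x y, u x y * stdAddChar (∑ c, k c * ℓ x y c) * f x * g y *
          sg (Tree.eval (t + 1) T (fun c => mk c (fun l => ℓ x y (c, l)) (tk x y c))) =
          ∑ lam : Fin r → ZMod M, ∑ β : Fin V, (1 / (M : ℂ)) ^ r * ∑ κ : Fin r → ZMod M,
            u x y * stdAddChar (∑ c, k c * ℓ x y c) * f x * g y *
            (stdAddChar (∑ l, κ l * (ℓ x y (c0, l) - lam l)) * (fr β x * gr β y)) *
            sg (Tree.eval t (T.2 (mk c0 lam β)) (fun c => mk c (fun l => ℓ x y (c, l)) (tk x y c))) := by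
        intro x y
        have h3 : ∀ (lam : Fin r → ZMod M) (β : Fin V), (1 / (M : ℂ)) ^ r * ∑ κ : Fin r → ZMod M,
            u x y * stdAddChar (∑ c, k c * ℓ x y c) * f x * g y *
            (stdAddChar (∑ l, κ l * (ℓ x y (c0, l) - lam l)) * (fr β x * gr β y)) *
            sg (Tree.eval t (T.2 (mk c0 lam β)) (fun c => mk c (fun l => ℓ x y (c, l)) (tk x y c))) =
            u x y * stdAddChar (∑ c, k c * ℓ x y c) * f x * g y *
            ((if (fun l => ℓ x y (c0, l)) = lam then (1 : ℂ) else 0) *
              (if tk x y c0 = β then (1 : ℂ) else 0)) *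
            sg (Tree.eval t (T.2 (mk c0 lam β)) (fun c => mk c (fun l => ℓ x y (c, l)) (tk x y c))) := by
          intro lam β
          rw [hind, ← hfg]
          simp only [Finset.mul_sum, Finset.sum_mul]
          refine Finset.sum_congr rfl fun κ _ => ?_
          ring
        simp only [h3]
        rw [Finset.sum_eq_single (fun l => ℓ x y (c0, l))]
        · rw [Finset.sum_eq_single (tk x y c0)]
          · simp only [if_true, mul_one]
            rfl
          · intro β _ hβ
            rw [if_neg (Ne.symm hβ)]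
            ring
          · intro h
            exact absurd (Finset.mem_univ _) h
        · intro lam _ hlam
          refine Finset.sum_eq_zero fun β _ => ?_
          rw [if_neg (Ne.symm hlam)]
          ring
        · intro h
          exact absurd (Finset.mem_univ _) h
      simp only [h2]
      have h4 : ∀ x, ∑ y, ∑ lam : Fin r → ZMod M, ∑ β : Fin V, (1 / (M : ℂ)) ^ r *
            ∑ κ : Fin r → ZMod M,
            u x y * stdAddChar (∑ c, k c * ℓ x y c) * f x * g y *
            (stdAddChar (∑ l, κ l * (ℓ x y (c0, l) - lam l)) * (fr β x * gr β y)) *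
            sg (Tree.eval t (T.2 (mk c0 lam β)) (fun c => mk c (fun l => ℓ x y (c, l)) (tk x y c))) =
          ∑ lam : Fin r → ZMod M, ∑ β : Fin V, (1 / (M : ℂ)) ^ r * ∑ κ : Fin r → ZMod M, ∑ y,
            u x y * stdAddChar (∑ c, k c * ℓ x y c) * f x * g y *
            (stdAddChar (∑ l, κ l * (ℓ x y (c0, l) - lam l)) * (fr β x * gr β y)) *
            sg (Tree.eval t (T.2 (mk c0 lam β)) (fun c => mk c (fun l => ℓ x y (c, l)) (tk x y c))) := by
        intro x
        rw [Finset.sum_comm]
        refine Finset.sum_congr rfl fun lam _ => ?_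
        rw [Finset.sum_comm]
        refine Finset.sum_congr rfl fun β _ => ?_
        rw [← Finset.mul_sum, Finset.sum_comm]
      simp only [h4]
      rw [Finset.sum_comm]
      refine Finset.sum_congr rfl fun lam _ => ?_
      rw [Finset.sum_comm]
      refine Finset.sum_congr rfl fun β _ => ?_
      rw [← Finset.mul_sum, Finset.sum_comm]
    rw [h1]
    have h5 : ∀ (lam κ : Fin r → ZMod M) (β : Fin V),
        ‖∑ x, ∑ y, u x y * stdAddChar (∑ c, k c * ℓ x y c) * f x * g y *
            (stdAddChar (∑ l, κ l * (ℓ x y (c0, l) - lam l)) * (fr β x * gr β y)) *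
            sg (Tree.eval t (T.2 (mk c0 lam β)) (fun c => mk c (fun l => ℓ x y (c, l)) (tk x y c)))‖ ≤
          ((M : ℝ) ^ r * V) ^ t * q := by
      intro lam κ β
      have h6 := ih (T.2 (mk c0 lam β)) (fun c => k c + if c.1 = c0 then κ c.2 else 0)
        (fun x => f x * fr β x) (fun y => g y * gr β y)
        (fun x => by
          rw [norm_mul]
          exact mul_le_one₀ (hf x) (norm_nonneg _) (hfr1 β x))
        (fun y => by
          rw [norm_mul]
          exact mul_le_one₀ (hg y) (norm_nonneg _) (hgr1 β y))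
      have h7 : ∑ x, ∑ y, u x y * stdAddChar (∑ c, k c * ℓ x y c) * f x * g y *
            (stdAddChar (∑ l, κ l * (ℓ x y (c0, l) - lam l)) * (fr β x * gr β y)) *
            sg (Tree.eval t (T.2 (mk c0 lam β)) (fun c => mk c (fun l => ℓ x y (c, l)) (tk x y c))) =
          stdAddChar (-(∑ l, κ l * lam l)) * ∑ x, ∑ y, u x y *
            stdAddChar (∑ c, (k c + if c.1 = c0 then κ c.2 else 0) * ℓ x y c) *
            (f x * fr β x) * (g y * gr β y) *
            sg (Tree.eval t (T.2 (mk c0 lam β)) (fun c => mk c (fun l => ℓ x y (c, l)) (tk x y c))) := by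
        rw [Finset.mul_sum]
        refine Finset.sum_congr rfl fun x _ => ?_
        rw [Finset.mul_sum]
        refine Finset.sum_congr rfl fun y _ => ?_
        have h8 : ∑ c, (k c + if c.1 = c0 then κ c.2 else 0) * ℓ x y c =
            ∑ c, k c * ℓ x y c + ∑ l, κ l * ℓ x y (c0, l) := by
          simp only [add_mul, Finset.sum_add_distrib]
          congr 1
          rw [Fintype.sum_prod_type, Finset.sum_eq_single c0]
          · simp
          · intro c _ hc
            refine Finset.sum_eq_zero fun l _ => ?_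
            rw [if_neg hc, zero_mul]
          · intro h
            exact absurd (Finset.mem_univ _) h
        have h9 : (stdAddChar (∑ l, κ l * (ℓ x y (c0, l) - lam l)) : ℂ) =
            stdAddChar (∑ l, κ l * ℓ x y (c0, l)) * stdAddChar (-(∑ l, κ l * lam l)) := by
          rw [← AddChar.map_add_eq_mul]
          congr 1
          simp only [mul_sub, Finset.sum_sub_distrib]
          ring
        rw [h8, AddChar.map_add_eq_mul, h9]
        ring
      rw [h7, norm_mul, chr_norm, one_mul]
      exact h6
    refine le_trans (norm_sum_le _ _) ?_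
    have h10 : ∀ lam : Fin r → ZMod M, ‖∑ β : Fin V, (1 / (M : ℂ)) ^ r * ∑ κ : Fin r → ZMod M,
          ∑ x, ∑ y, u x y * stdAddChar (∑ c, k c * ℓ x y c) * f x * g y *
            (stdAddChar (∑ l, κ l * (ℓ x y (c0, l) - lam l)) * (fr β x * gr β y)) *
            sg (Tree.eval t (T.2 (mk c0 lam β)) (fun c => mk c (fun l => ℓ x y (c, l)) (tk x y c)))‖ ≤
        V * (((M : ℝ) ^ r * V) ^ t * q) := by
      intro lam
      refine le_trans (norm_sum_le _ _) ?_
      calc _ ≤ ∑ _β : Fin V, ((M : ℝ) ^ r * V) ^ t * q := by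
            refine Finset.sum_le_sum fun β _ => ?_
            rw [norm_mul]
            have h8 : ‖(1 / (M : ℂ)) ^ r‖ = (1 / (M : ℝ)) ^ r := by simp
            rw [h8]
            calc (1 / (M : ℝ)) ^ r * ‖∑ κ : Fin r → ZMod M,
                ∑ x, ∑ y, u x y * stdAddChar (∑ c, k c * ℓ x y c) * f x * g y *
                  (stdAddChar (∑ l, κ l * (ℓ x y (c0, l) - lam l)) * (fr β x * gr β y)) *
                  sg (Tree.eval t (T.2 (mk c0 lam β))
                    (fun c => mk c (fun l => ℓ x y (c, l)) (tk x y c)))‖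
                ≤ (1 / (M : ℝ)) ^ r * ∑ _κ : Fin r → ZMod M, ((M : ℝ) ^ r * V) ^ t * q :=
                  mul_le_mul_of_nonneg_left (le_trans (norm_sum_le _ _)
                    (Finset.sum_le_sum fun κ _ => h5 lam κ β)) (by positivity)
              _ = ((M : ℝ) ^ r * V) ^ t * q := by
                  rw [Finset.sum_const, Finset.card_univ, Fintype.card_fun, ZMod.card,
                    Fintype.card_fin, nsmul_eq_mul]
                  push_cast
                  rw [← mul_assoc, ← mul_pow, one_div_mul_cancel hM'.ne', one_pow, one_mul]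
        _ = V * (((M : ℝ) ^ r * V) ^ t * q) := by
            rw [Finset.sum_const, Finset.card_univ, Fintype.card_fin, nsmul_eq_mul]
    calc _ ≤ ∑ _lam : Fin r → ZMod M, V * (((M : ℝ) ^ r * V) ^ t * q) :=
          Finset.sum_le_sum fun lam _ => h10 lam
      _ = ((M : ℝ) ^ r * V) ^ (t + 1) * q := by
          rw [Finset.sum_const, Finset.card_univ, Fintype.card_fun, ZMod.card, Fintype.card_fin,
            nsmul_eq_mul]
          push_cast
          ring

end Pool.Agent.N381.SG
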