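import Pool.Agent.N381.ST.Emb2
import Pool.Agent.N381.ST.Cnt
import Pool.Agent.N381.SG.Tre

set_option autoImplicit false

/-!
# The pairs for which a combination of the sums is not annihilated are few
-/

namespace Pool.Agent.N381.SG

open Finset ZMod Pointwise
open Pool.Agent.N381.ST

variable {M : ℕ} [NeZero M] {F : Type} [Fintype F]

/-- The coefficients of the combination `e` of the forms. -/
def comb (cf : F → ℕ → ZMod M) (e : F → ZMod M) : ℕ → ZMod M := fun z => ∑ c, e c * cf c z

/-- The pair `q` is bad: some combination of the forms is not annihilated at `q`, and at `ρ` pairs at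
most. -/
def Bad (cf : F → ℕ → ZMod M) (S k h v ρ : ℕ) (q : Fin k × Fin k) : Prop :=
  ∃ e : F → ZMod M, NP h v (pt (comb cf e) S k q.1 q.2) ∧ #(nps (comb cf e) S k h v) ≤ ρ

open Classical in
theorem bad_count (cf : F → ℕ → ZMod M) (s : ℕ) (hs : #(univ.filter (fun c => cf c ≠ 0)) ≤ s)
    (S k h v ρ : ℕ) (B : Finset (Fin k × Fin k))
    (hB : ∀ q ∈ B, Bad cf S k h v ρ q) : 2 ^ #B ≤ (M ^ s) ^ ρ := by
  have hw : ∀ q : Fin k × Fin k, ∃ z : ℕ, q ∈ B → h ≤ z ∧ z + al (h - 1) < v ∧
      ∃ e : F → ZMod M, T (h - 1) (pt (comb cf e) S k q.1 q.2) z ≠ 0 ∧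
        #(nps (comb cf e) S k h v) ≤ ρ := by
    intro q
    by_cases hq : q ∈ B
    · obtain ⟨e, ⟨z, h1, h2, h3⟩, h4⟩ := hB q hq
      exact ⟨z, fun _ => ⟨h1, h2, e, h3, h4⟩⟩
    · exact ⟨0, fun h => absurd h hq⟩
  choose z hz using hw
  set L : Fin k × Fin k → (F → ZMod M) → ZMod M :=
    fun q e => T (h - 1) (pt (comb cf e) S k q.1 q.2) (z q) with hL
  have hLe : ∀ q e, L q e = ∑ c, e c * T (h - 1) (pt (cf c) S k q.1 q.2) (z q) := by
    intro q e
    simp only [hL]
    have h1 : pt (comb cf e) S k q.1 q.2 = fun y => ∑ c, (fun c y => e c * pt (cf c) S k q.1 q.2 y) c y := by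
      funext y
      simp only [pt, comb]
    rw [h1, T_sum]
    refine Finset.sum_congr rfl fun c _ => ?_
    exact T_mul (e c) (pt (cf c) S k q.1 q.2) (h - 1) (z q)
  have hadd : ∀ q x y, L q (x + y) = L q x + L q y := by
    intro q x y
    rw [hLe, hLe, hLe, ← Finset.sum_add_distrib]
    refine Finset.sum_congr rfl fun c _ => ?_
    rw [Pi.add_apply, add_mul]
  have h1 := count L hadd ρ #B B le_rfl (by
    intro q hq
    obtain ⟨_, _, e, h3, h4⟩ := hz q hq
    refine ⟨e, h3, le_trans (Finset.card_le_card ?_) h4⟩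
    intro q' hq'
    rw [Finset.mem_filter] at hq'
    obtain ⟨h5, h6⟩ := hq'
    obtain ⟨h7, h8, _⟩ := hz q' h5
    simp only [nps, Finset.mem_filter, Finset.mem_univ, true_and]
    exact ⟨z q', h7, h8, h6⟩)
  refine le_trans h1 (Nat.pow_le_pow_left ?_ ρ)
  -- the number of values
  set ι' := {c : F // cf c ≠ 0} with hι'
  set ext : (ι' → ZMod M) → (F → ZMod M) :=
    fun e c => if hc : cf c ≠ 0 then e ⟨c, hc⟩ else 0 with hext
  have hsub : (univ.image (vals L B)) ⊆ univ.image (fun e : ι' → ZMod M => vals L B (ext e)) := by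
    intro φ hφ
    rw [Finset.mem_image] at hφ ⊢
    obtain ⟨e, _, rfl⟩ := hφ
    refine ⟨fun c => e c.1, Finset.mem_univ _, ?_⟩
    funext q
    simp only [vals]
    split_ifs with hq
    · rw [hLe, hLe]
      refine Finset.sum_congr rfl fun c _ => ?_
      by_cases hc : cf c ≠ 0
      · simp only [hext, dif_pos hc]
      · push Not at hc
        have h2 : pt (cf c) S k q.1 q.2 = fun _ => (0 : ZMod M) := by
          funext y
          simp only [pt, hc, Pi.zero_apply]
        rw [h2, T_zero]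
        simp
    · rfl
  refine le_trans (Finset.card_le_card hsub) (le_trans Finset.card_image_le ?_)
  rw [Finset.card_univ, Fintype.card_fun, ZMod.card, Fintype.card_subtype]
  exact Nat.pow_le_pow_right (NeZero.pos M) hs

end Pool.Agent.N381.SG
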