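import Pool.Agent.N381.SG.Avg
import Pool.Agent.N381.ST.Par

set_option autoImplicit false

/-!
# The space bound
-/

namespace Pool.Agent.N381.SG

open Finset ZMod Pointwise
open Pool.Agent.N381.ST (gap params al al_le)

theorem final (M : ℕ) (hM : 1 ≤ M) : ∃ C : ℝ, 0 < C ∧
    ∀ (n r V t s : ℕ) (δ : ℝ), 1 ≤ V → 0 < δ → δ ≤ 1 / 2 →
      ∀ (Ω : Type) [Fintype Ω] (p : Ω → ℝ) (D : Ω → Tables M r V t),
        Solves n p D δ → (∀ ω, (D ω).space ≤ s) →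
          (δ / ((M : ℝ) ^ r * V) ^ t) ^ (20 * M + 5) * (n : ℝ) ^ 2 ≤ C * (r * s + 1) := by
  haveI : NeZero M := ⟨by omega⟩
  obtain ⟨lam, hl0, hl1, hl, hl'⟩ := gap (2 * M)
  obtain ⟨K, hK1, hK⟩ := params lam hl0 hl1 M hM
  refine ⟨K * 2 ^ (20 * M + 4), by positivity, ?_⟩
  intro n r V t s δ hV hδ0 hδ1 Ω _ p D hD hs
  have hMR : (1 : ℝ) ≤ M := by exact_mod_cast hM
  have hVR : (1 : ℝ) ≤ V := by exact_mod_cast hV
  have hMt' : (1 : ℝ) ≤ ((M : ℝ) ^ r * V) ^ t :=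
    one_le_pow₀ (one_le_mul_of_one_le_of_one_le (one_le_pow₀ hMR) hVR)
  set W : ℝ := ((M : ℝ) ^ r * V) ^ t with hW
  have hMt : (1 : ℝ) ≤ W := hMt'
  have hW0 : 0 < W := lt_of_lt_of_le zero_lt_one hMt
  set η : ℝ := δ / W with hη
  have hη0 : 0 < η := by positivity
  have hη1 : η ≤ 1 := by
    rw [hη, div_le_one (by positivity)]
    linarith
  have hηδ : η ≤ δ := by
    rw [hη, div_le_iff₀ (by positivity)]
    nlinarith
  -- the least `q`
  have hex : ∃ q : ℕ, (1 / 2 : ℝ) ^ q ≤ η := by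
    obtain ⟨q, hq⟩ := exists_pow_lt_of_lt_one hη0 (by norm_num : (1 / 2 : ℝ) < 1)
    exact ⟨q, hq.le⟩
  classical
  obtain ⟨q, hq1, hq2⟩ : ∃ q : ℕ, (1 / 2 : ℝ) ^ q ≤ η ∧ ((2 : ℝ) ^ q) ≤ 2 / η := by
    refine ⟨Nat.find hex, Nat.find_spec hex, ?_⟩
    rcases Nat.eq_zero_or_pos (Nat.find hex) with h | h
    · rw [h, pow_zero, le_div_iff₀ hη0]
      linarith
    · have h1 := Nat.find_min hex (Nat.sub_lt h Nat.one_pos)
      push Not at h1
      obtain ⟨m, hm⟩ := Nat.exists_eq_succ_of_ne_zero h.ne'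
      rw [hm] at h1 ⊢
      simp only [Nat.succ_sub_one] at h1
      rw [Nat.succ_eq_add_one, pow_succ, le_div_iff₀ hη0]
      have h2 : (2 : ℝ) ^ m * (1 / 2) ^ m = 1 := by rw [← mul_pow]; norm_num
      have h3 : (2 : ℝ) ^ m * η < 1 := by
        rw [← h2]
        exact mul_lt_mul_of_pos_left h1 (by positivity)
      linarith
  obtain ⟨h, v, rr, R, R', κ, hh, hv, hκ, p1, p2, p3, p4⟩ := hK q
  -- the parameters
  have hh1 : 1 ≤ h ^ 2 := Nat.one_le_pow _ _ (by omega)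
  have hhh : h ≤ h ^ 2 := by nlinarith
  have hal : al (h - 1) ≤ h ^ 2 := by
    have := al_le (h - 1)
    rwa [Nat.sub_add_cancel (by omega : 1 ≤ h)] at this
  have hvv : 2 * h + (2 * rr + 3) * al (h - 1) + 1 ≤ v := by
    have h1 : (2 * rr + 3) * al (h - 1) ≤ (2 * rr + 3) * h ^ 2 := Nat.mul_le_mul_left _ hal
    have h2 : h ^ 2 * (2 * rr + 6) = 2 * h ^ 2 + (2 * rr + 3) * h ^ 2 + h ^ 2 := by ring
    omega
  have hv3 : 3 * h + 1 ≤ v := by
    have h2 : h ^ 2 * (2 * rr + 6) = 2 * rr * h ^ 2 + 6 * h ^ 2 := by ring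
    have h3 : 0 ≤ 2 * rr * h ^ 2 := Nat.zero_le _
    omega
  have hv1 : 1 ≤ v := by omega
  set k := n / v with hk
  have hkv : k * v ≤ n := Nat.div_mul_le_self n v
  have hkS : k * (v + h) ≤ 2 * n := by
    have h1 : k * (v + h) ≤ k * (2 * v) := Nat.mul_le_mul_left _ (by omega)
    have h2 : k * (2 * v) = 2 * (k * v) := by ring
    omega
  have hkn : k ≤ n := Nat.div_le_self n v
  have hnn : n ≤ n ^ 2 := by
    rcases Nat.eq_zero_or_pos n with h0 | h0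
    · rw [h0]; norm_num
    · nlinarith
  have hkS1 : k * (v + h) ≤ 2 * n ^ 2 := by omega
  have hkS2 : k * (k * (v + h)) ≤ 2 * n ^ 2 := by
    calc k * (k * (v + h)) ≤ n * (2 * n) := Nat.mul_le_mul hkn hkS
      _ = 2 * n ^ 2 := by ring
  have hεδ : W * (1 / 2 : ℝ) ^ q ≤ δ := by
    rw [hη, le_div_iff₀ (by positivity)] at hq1
    linarith
  have hav := avg n p D δ hD hδ0 s hs lam hl0 hl1 hl hl' k h v (v + h) (2 * h) rr R R' κ hh hvv hv3
    le_rfl rfl hκ ((1 / 2 : ℝ) ^ q) p1 p2 p3 (by positivity) hεδ hkv hkS1 hkS2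
  -- the conclusion
  have hvR : (1 : ℝ) ≤ v := by exact_mod_cast hv1
  have hKU : (4 : ℝ) * v ^ 2 * (M * ((R * R' + 1 : ℕ) : ℝ)) ≤ K * (2 / η) ^ (20 * M + 4) := by
    calc (4 : ℝ) * v ^ 2 * (M * ((R * R' + 1 : ℕ) : ℝ)) ≤ K * ((2 : ℝ) ^ q) ^ (20 * M + 4) := by
          exact_mod_cast p4
      _ ≤ K * (2 / η) ^ (20 * M + 4) := by gcongr
  have hmain : δ * (n : ℝ) ^ 2 ≤ 4 * v ^ 2 * (M * ((R * R' + 1 : ℕ) : ℝ)) * (r * s + 1) := by
    have hρ : (1 : ℝ) ≤ M * ((R * R' + 1 : ℕ) : ℝ) := by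
      have : (1 : ℝ) ≤ ((R * R' + 1 : ℕ) : ℝ) := by
        push_cast
        have : (0 : ℝ) ≤ R * R' := by positivity
        linarith
      nlinarith
    rcases Nat.lt_or_ge n v with hnv | hnv
    · have h1 : (n : ℝ) ≤ v := by exact_mod_cast hnv.le
      have h2 : (n : ℝ) ^ 2 ≤ v ^ 2 := pow_le_pow_left₀ (by positivity) h1 2
      have h3 : (1 : ℝ) ≤ (r : ℝ) * s + 1 := by
        have : (0 : ℝ) ≤ (r : ℝ) * s := by positivity
        linarith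
      have h4 : δ * (n : ℝ) ^ 2 ≤ (1 : ℝ) * (v : ℝ) ^ 2 :=
        mul_le_mul (by linarith) h2 (by positivity) zero_le_one
      have h5 : (1 : ℝ) * (v : ℝ) ^ 2 ≤ 4 * (v : ℝ) ^ 2 * 1 * 1 := by nlinarith [sq_nonneg (v : ℝ)]
      have h6 : 4 * (v : ℝ) ^ 2 * 1 * 1 ≤ 4 * (v : ℝ) ^ 2 * (M * ((R * R' + 1 : ℕ) : ℝ)) * ((r : ℝ) * s + 1) := by
        gcongr
      linarith
    · have h1 : n ≤ 2 * (v * k) := by
        have h2 : n < v * (k + 1) := by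
          rw [hk]
          exact Nat.lt_mul_div_succ n (by omega)
        have h3 : 1 ≤ k := by
          rw [hk]
          exact (Nat.one_le_div_iff (by omega)).mpr hnv
        have h4 : v * (k + 1) = v * k + v := by ring
        have h5 : v ≤ v * k := Nat.le_mul_of_pos_right v h3
        omega
      have h2 : (n : ℝ) ≤ 2 * (v * k) := by exact_mod_cast h1
      calc δ * (n : ℝ) ^ 2 ≤ δ * (2 * (v * k)) ^ 2 := by gcongr
        _ = 4 * v ^ 2 * (δ * (k : ℝ) ^ 2) := by ring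
        _ ≤ 4 * v ^ 2 * (M * ((R * R' + 1 : ℕ) : ℝ) * ((r * s : ℕ) : ℝ)) :=
            mul_le_mul_of_nonneg_left hav (by positivity)
        _ = 4 * v ^ 2 * (M * ((R * R' + 1 : ℕ) : ℝ)) * (r * s) := by push_cast; ring
        _ ≤ 4 * v ^ 2 * (M * ((R * R' + 1 : ℕ) : ℝ)) * (r * s + 1) := by
            gcongr
            linarith
  have hs0 : (0 : ℝ) ≤ (r : ℝ) * s + 1 := by positivity
  calc η ^ (20 * M + 5) * (n : ℝ) ^ 2 = η ^ (20 * M + 4) * (η * (n : ℝ) ^ 2) := by ring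
    _ ≤ η ^ (20 * M + 4) * (δ * (n : ℝ) ^ 2) := by gcongr
    _ ≤ η ^ (20 * M + 4) * (4 * v ^ 2 * (M * ((R * R' + 1 : ℕ) : ℝ)) * (r * s + 1)) := by gcongr
    _ ≤ η ^ (20 * M + 4) * (K * (2 / η) ^ (20 * M + 4) * (r * s + 1)) := by gcongr
    _ = (η * (2 / η)) ^ (20 * M + 4) * K * (r * s + 1) := by rw [mul_pow]; ring
    _ = K * 2 ^ (20 * M + 4) * (r * s + 1) := by
        rw [mul_div_cancel₀ _ hη0.ne']
        ring

end Pool.Agent.N381.SG
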