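import Pool.Agent.N381.ST.Chr

set_option autoImplicit false

/-!
# The model
-/

namespace Pool.Agent.N381.SG

open Finset Pointwise

/-- Adaptive query algorithms: trees of depth `t`; at a node a cell is read, whose content, a symbol
from `S`, determines the next step; the leaves hold the output. -/
def Tree (S ι : Type) : ℕ → Type
  | 0 => Bool
  | t + 1 => ι × (S → Tree S ι t)

/-- The output of a query algorithm on the cells with contents `x`. -/
def Tree.eval {S ι : Type} : (t : ℕ) → Tree S ι t → (ι → S) → Bool
  | 0, b, _ => b
  | t + 1, T, x => Tree.eval t (T.2 (x T.1)) x

/-- A data structure for two sets `A`, `B` of integers. The content of every cell is a function of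

* `r` sums modulo `M`: the sum number `l` of the cell `c` is the sum of `coef c l z` over the integers `z`
  for which the answer is positive, plus the sum of `mult c l (a + b)` over all pairs of an element `a` of
  `A` and an element `b` of `B`, plus a function of `A`, plus a function of `B`,
* the number `talk c A B` of the part of a partition of all pairs `(A, B)` into `V` rectangles.

The query algorithms read `t` cells adaptively. -/
structure Tables (M r V t : ℕ) where
  /-- the cells -/
  cells : Type
  /-- there are finitely many cells -/
  fin : Fintype cells
  /-- the possible contents of the cells -/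
  symbols : Type
  /-- the coefficients of the answers in the sums -/
  coef : cells → Fin r → ℕ → ZMod M
  /-- the coefficients of the numbers of representations in the sums -/
  mult : cells → Fin r → ℕ → ZMod M
  /-- the parts of the sums which depend on the first set only -/
  left : cells → Fin r → Finset ℕ → ZMod M
  /-- the parts of the sums which depend on the second set only -/
  right : cells → Fin r → Finset ℕ → ZMod M
  /-- the part of the partition into rectangles -/
  talk : cells → Finset ℕ → Finset ℕ → Fin V
  /-- the parts are rectangles -/
  rect : ∀ c A A' B B', talk c A B = talk c A' B' → talk c A B' = talk c A B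
  /-- the content of a cell as a function of the sums and of the part -/
  make : cells → (Fin r → ZMod M) → Fin V → symbols
  /-- the query algorithms -/
  query : ℕ → Tree symbols cells t

variable {M r V t : ℕ}

/-- The sums. The first sum is over all `z` in the sumset, that is, over all `z` for which the answer is
positive. The second sum is the sum over all `z` of `mult c l z` times the number of representations
`z = a + b`. -/
def Tables.form (D : Tables M r V t) (A B : Finset ℕ) (q : D.cells × Fin r) : ZMod M :=
  ∑ z ∈ A + B, D.coef q.1 q.2 z + ∑ a ∈ A, ∑ b ∈ B, D.mult q.1 q.2 (a + b) + D.left q.1 q.2 A +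
    D.right q.1 q.2 B

/-- The contents of the cells. -/
def Tables.content (D : Tables M r V t) (A B : Finset ℕ) (c : D.cells) : D.symbols :=
  D.make c (fun l => D.form A B (c, l)) (D.talk c A B)

/-- The output of the query algorithm for `z`. -/
def Tables.output (D : Tables M r V t) (A B : Finset ℕ) (z : ℕ) : Bool :=
  Tree.eval t (D.query z) (D.content A B)

open Classical in
/-- The number of cells in which some answer or some number of representations enters. -/
noncomputable def Tables.space (D : Tables M r V t) : ℕ :=
  #((@Finset.univ D.cells D.fin).filter (fun c => ∃ l, D.coef c l ≠ 0 ∨ D.mult c l ≠ 0))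

/-- The admissible sets: at most `n` integers from `{0, …, 2 n ^ 2}`. -/
def Arr (n : ℕ) (A : Finset ℕ) : Prop := #A ≤ n ∧ ∀ a ∈ A, a ≤ 2 * n ^ 2

/-- The random data structure `D` (the outcome `ω` has probability `p ω`) answers every query for all
sets correctly with probability at least `1 / 2 + δ`. -/
def Solves {Ω : Type} [Fintype Ω] (n : ℕ) (p : Ω → ℝ) (D : Ω → Tables M r V t) (δ : ℝ) : Prop :=
  (∀ ω, 0 ≤ p ω) ∧ ∑ ω, p ω = 1 ∧ ∀ A B : Finset ℕ, Arr n A → Arr n B → ∀ z : ℕ,
    1 / 2 + δ ≤ ∑ ω, p ω * (if (D ω).output A B z = decide (z ∈ A + B) then 1 else 0)

end Pool.Agent.N381.SG
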