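import Pool.Agent.N381.SG.Bad

set_option autoImplicit false

/-!
# The query of a pair which is not bad
-/

namespace Pool.Agent.N381.SG

open Finset ZMod Pointwise
open Pool.Agent.N381.ST (sg sg_norm indicator chr_norm al T NP pt nps wt ph setA setB dbl dbl_inj chr_dbl
  chr_half T_map disc_all sum_ph sum_add2)

variable {M r V t : ℕ} [NeZero M]

/-- The coefficients of the sums on sets for which all representations are unique. -/
def Tables.cf (D : Tables M r V t) (q : D.cells × Fin r) : ℕ → ZMod M :=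
  fun z => D.coef q.1 q.2 z + D.mult q.1 q.2 z

/-- The query of a pair which is not bad has small correlation with the output. -/
theorem good_pair (D : Tables M r V t) [Fintype D.cells] (lam : ℝ) (hl0 : 0 < lam) (hl1 : lam < 1)
    (hl : ∀ a : ZMod (2 * M), a ≠ 0 → ‖(1 : ℂ) + stdAddChar a‖ ≤ 2 * lam)
    (hl' : ∀ a b : ZMod (2 * M), a ≠ b → ‖(stdAddChar a : ℂ) + stdAddChar b‖ ≤ 2 * lam)
    (k h v S z0 rr R R' κ : ℕ) (hh : 2 ≤ h)
    (hv : 2 * h + (2 * rr + 3) * al (h - 1) + 1 ≤ v) (hv3 : 3 * h + 1 ≤ v) (hS : v + h ≤ S)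
    (hz0 : z0 = 2 * h) (hκ : (2 * M) ^ κ ≤ h) (ε : ℝ)
    (h1 : ((rr : ℝ) + 1) / h + lam ^ (rr + 1) ≤ ε ^ 2)
    (h2 : 1 / (h : ℝ) + lam ^ R ≤ ε ^ 2)
    (h3 : 1 / (2 : ℝ) ^ κ + (1 - 2 * (1 - lam) / h) ^ R' ≤ ε ^ 2) (hε : 0 ≤ ε)
    (i j : Fin k) (hgood : ¬ Bad D.cf S k h v (R * R' + 1) (i, j)) :
    ‖∑ x : Fin k → Fin h, ∑ Y : Finset (Fin k × Fin v),
      sg (decide (((i : ℕ) + j * k) * S + z0 ∈ setA k h S x + setB k v S Y)) *
      sg (D.output (setA k h S x) (setB k v S Y) (((i : ℕ) + j * k) * S + z0))‖ ≤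
      ((M : ℝ) ^ r * V) ^ t * ((h : ℝ) ^ k * 2 ^ Fintype.card (Fin k × Fin v) * ε) := by
  classical
  have hq : 0 ≤ (h : ℝ) ^ k * 2 ^ Fintype.card (Fin k × Fin v) * ε := by positivity
  have hyp : ∀ (e : D.cells × Fin r → ZMod M) (f : (Fin k → Fin h) → ℂ)
      (g : Finset (Fin k × Fin v) → ℂ), (∀ x, ‖f x‖ ≤ 1) → (∀ y, ‖g y‖ ≤ 1) →
      ‖∑ x : Fin k → Fin h, ∑ Y : Finset (Fin k × Fin v),
      sg (decide (((i : ℕ) + j * k) * S + z0 ∈ setA k h S x + setB k v S Y)) *
        stdAddChar (∑ c, e c * D.form (setA k h S x) (setB k v S Y) c) * f x * g Y‖ ≤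
      (h : ℝ) ^ k * 2 ^ Fintype.card (Fin k × Fin v) * ε := by
    intro e f g hf hg
    set c0 : ℕ → ZMod (2 * M) := fun z => dbl M (comb D.cf e z) with hc0
    set m : ZMod (2 * M) := ((M : ℕ) : ZMod (2 * M)) with hm
    have hnp : ∀ q : Fin k × Fin k, NP h v (pt c0 S k q.1 q.2) ↔
        NP h v (pt (comb D.cf e) S k q.1 q.2) := by
      intro q
      have h4 : ∀ z, T (h - 1) (pt c0 S k q.1 q.2) z =
          dbl M (T (h - 1) (pt (comb D.cf e) S k q.1 q.2) z) := by
        intro z
        rw [← T_map (dbl M) (h - 1) (pt (comb D.cf e) S k q.1 q.2) z]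
        rfl
      constructor
      · rintro ⟨z, a1, a2, a3⟩
        refine ⟨z, a1, a2, fun h5 => a3 ?_⟩
        rw [h4, h5, map_zero]
      · rintro ⟨z, a1, a2, a3⟩
        refine ⟨z, a1, a2, fun h5 => a3 ?_⟩
        rw [h4] at h5
        exact dbl_inj M _ h5
    have hnps : nps c0 S k h v = nps (comb D.cf e) S k h v := by
      ext q
      simp only [nps, Finset.mem_filter, Finset.mem_univ, true_and]
      exact hnp q
    have hcase : ¬ NP h v (pt c0 S k i j) ∨ R * R' + 1 < #(nps c0 S k h v) := by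
      by_contra hcon
      push Not at hcon
      apply hgood
      refine ⟨e, (hnp (i, j)).mp hcon.1, ?_⟩
      rw [← hnps]
      exact hcon.2
    set f' : (Fin k → Fin h) → ℂ :=
      fun x => stdAddChar (∑ c, e c * D.left c.1 c.2 (setA k h S x)) * f x with hf'
    set g' : Finset (Fin k × Fin v) → ℂ :=
      fun Y => stdAddChar (∑ c, e c * D.right c.1 c.2 (setB k v S Y)) * g Y with hg'
    have hdisc := disc_all (N := 2 * M) lam hl0 hl1 hl hl' (by have := NeZero.pos M; omega) k h v S z0 rr R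
      R' κ hh hv hv3 hS hz0 hκ c0 m (chr_half M) i j hcase (ε ^ 2) h1 h2 h3 f' g'
      (fun x => by simp only [hf']; rw [norm_mul, chr_norm, one_mul]; exact hf x)
      (fun x => by simp only [hg']; rw [norm_mul, chr_norm, one_mul]; exact hg x)
    have heq : ∑ x : Fin k → Fin h, ∑ Y : Finset (Fin k × Fin v),
        sg (decide (((i : ℕ) + j * k) * S + z0 ∈ setA k h S x + setB k v S Y)) *
          stdAddChar (∑ c, e c * D.form (setA k h S x) (setB k v S Y) c) * f x * g Y =
        ∑ x, ∑ Y, stdAddChar (ph (wt (fun z => c0 z + if z = ((i : ℕ) + j * k) * S + z0 then m else 0)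
        S k h v) x Y) * f' x * g' Y := by
      refine Finset.sum_congr rfl fun x _ => Finset.sum_congr rfl fun Y _ => ?_
      rw [← sum_ph k h v S hS]
      rw [Finset.sum_add_distrib, AddChar.map_add_eq_mul]
      have h5 : (stdAddChar (∑ z ∈ setA k h S x + setB k v S Y, c0 z) : ℂ) =
          stdAddChar (∑ z ∈ setA k h S x + setB k v S Y, comb D.cf e z) := by
        rw [← chr_dbl M]
        congr 1
        exact (map_sum (dbl M) _ _).symm
      have h6 : (stdAddChar (∑ z ∈ setA k h S x + setB k v S Y,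
          if z = ((i : ℕ) + j * k) * S + z0 then m else 0) : ℂ) =
          sg (decide (((i : ℕ) + j * k) * S + z0 ∈ setA k h S x + setB k v S Y)) := by
        rw [Finset.sum_ite_eq' (setA k h S x + setB k v S Y) (((i : ℕ) + j * k) * S + z0) (fun _ => m)]
        by_cases h7 : ((i : ℕ) + j * k) * S + z0 ∈ setA k h S x + setB k v S Y
        · rw [if_pos h7, chr_half M]
          simp [sg, h7]
        · rw [if_neg h7, AddChar.map_zero_eq_one]
          simp [sg, h7]
      rw [h5, h6]
      have h8 : ∑ c, e c * D.form (setA k h S x) (setB k v S Y) c =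
          ∑ z ∈ setA k h S x + setB k v S Y, comb D.cf e z +
            ∑ c, e c * D.left c.1 c.2 (setA k h S x) + ∑ c, e c * D.right c.1 c.2 (setB k v S Y) := by
        simp only [Tables.form, sum_add2 k h v S hS, mul_add, Finset.sum_add_distrib]
        congr 2
        simp only [comb, Tables.cf]
        rw [Finset.sum_comm]
        rw [← Finset.sum_add_distrib]
        refine Finset.sum_congr rfl fun c _ => ?_
        rw [Finset.mul_sum, Finset.mul_sum, ← Finset.sum_add_distrib]
        refine Finset.sum_congr rfl fun z _ => ?_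
        ring
      rw [h8, AddChar.map_add_eq_mul, AddChar.map_add_eq_mul]
      simp only [hf', hg']
      ring
    rw [heq]
    refine (sq_le_sq₀ (norm_nonneg _) hq).mp ?_
    rw [mul_pow]
    exact hdisc
  have htb := tree_bound (M := M) (r := r) (V := V) (S := D.symbols) (ι := D.cells)
    (X := Fin k → Fin h) (Y := Finset (Fin k × Fin v))
    (fun x Y => D.form (setA k h S x) (setB k v S Y))
    (fun x Y c => D.talk c (setA k h S x) (setB k v S Y))
    (fun c x x' y y' => D.rect c _ _ _ _) D.make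
    (fun x Y => sg (decide (((i : ℕ) + j * k) * S + z0 ∈ setA k h S x + setB k v S Y)))
    ((h : ℝ) ^ k * 2 ^ Fintype.card (Fin k × Fin v) * ε) hyp t
    (D.query (((i : ℕ) + j * k) * S + z0)) 0 (fun _ => 1) (fun _ => 1) (fun _ => by simp)
    (fun _ => by simp)
  refine le_trans (le_of_eq ?_) htb
  congr 1
  refine Finset.sum_congr rfl fun x _ => Finset.sum_congr rfl fun Y _ => ?_
  simp only [Pi.zero_apply, zero_mul, Finset.sum_const_zero, AddChar.map_zero_eq_one, mul_one]
  rfl

end Pool.Agent.N381.SG
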